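import Pool.Agent.Work.MP_9a3a53_an.Spread

/-!
# Lower bound for the Gelfand numbers of Schatten embeddings in every codimension
-/

set_option autoImplicit false
open Finset Module
open scoped ENNReal

namespace Pool.Agent.Results.MP_9a3a53_an.LowerAll

open Pool.Schatten

/-- For `2 ≤ p ≤ q ≤ ∞`, `q ≠ 2`, and all `N ≥ 1`, `1 ≤ n ≤ N ^ 2`:
`c_n (S_p^N → S_q^N) ≥ ((N ^ 2 - n + 1) / N ^ 2) ^ (θ / 2)`, where
`θ = (1 / p - 1 / q) / (1 / 2 - 1 / q)`. -/
theorem result (p q : ℝ≥0∞) (hp : 2 ≤ p) (hpq : p ≤ q) (hq : 2 < q) (N n : ℕ) (hN : 1 ≤ N)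
    (hn : 1 ≤ n) (hnN : n ≤ N ^ 2) :
    (((N : ℝ) ^ 2 - n + 1) / (N : ℝ) ^ 2) ^
        ((p.toReal⁻¹ - q.toReal⁻¹) / (1 / 2 - q.toReal⁻¹) / 2) ≤
      gelfandNumber p q N n := by
  have h12 : (1 : ℝ≥0∞) ≤ 2 := by norm_num
  have hp1 : 1 ≤ p := h12.trans hp
  have hq1 : 1 ≤ q := hp1.trans hpq
  set θ : ℝ := (p.toReal⁻¹ - q.toReal⁻¹) / (1 / 2 - q.toReal⁻¹) with hθ
  have hθ0 : 0 ≤ θ := by
    have hq2 : 0 < 1 / 2 - q.toReal⁻¹ := by
      rcases eq_or_ne q ∞ with rfl | hq'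
      · simp
      · have h1 : (2 : ℝ≥0∞).toReal < q.toReal :=
          (ENNReal.toReal_lt_toReal (by norm_num) hq').2 hq
        have h2 : 2 < q.toReal := by simpa using h1
        have : q.toReal⁻¹ < 1 / 2 := by
          rw [inv_eq_one_div]
          exact one_div_lt_one_div_of_lt (by norm_num) h2
        linarith
    apply div_nonneg _ hq2.le
    rcases eq_or_ne q ∞ with rfl | hq'
    · simp
    · have hp' : p ≠ ∞ := ne_top_of_le_ne_top hq' hpq
      have h1 : p.toReal ≤ q.toReal := ENNReal.toReal_mono hq' hpq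
      have h2 : 1 ≤ p.toReal := toReal_pos hp1 hp'
      have := inv_anti₀ (by linarith) h1
      linarith
  apply le_csInf
  · refine ⟨1, zero_le_one, ⊤, ?_, ?_⟩
    · rw [finrank_top]
      simp only [finrank_matrix, Fintype.card_fin, finrank_self]
      nlinarith
    · intro A _
      rw [one_mul]
      exact sNorm_anti hp1 hpq A
  · rintro r ⟨hr0, F, hF, hr⟩
    obtain ⟨A, hA, i, j, h1, h2⟩ := exists_spread hN F
    set t := A i j with ht
    have hNpos : (0 : ℝ) < (N : ℝ) ^ 2 := by positivity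
    have hδ : 0 < ((N : ℝ) ^ 2 - n + 1) / (N : ℝ) ^ 2 := by
      apply div_pos _ hNpos
      have : (n : ℝ) ≤ (N : ℝ) ^ 2 := by exact_mod_cast hnN
      linarith
    have hδt : ((N : ℝ) ^ 2 - n + 1) / (N : ℝ) ^ 2 ≤ t := by
      refine le_trans ?_ h1
      apply div_le_div_of_nonneg_right _ hNpos.le
      have : ((N : ℝ) ^ 2 + 1) ≤ (finrank ℝ F : ℝ) + n := by exact_mod_cast hF
      linarith
    have ht0 : 0 < t := lt_of_lt_of_le hδ hδt
    have hs2 : sNorm 2 A ^ 2 = t := by rw [sNorm_two_sq, h2]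
    have hs2' : sNorm 2 A = t ^ (1 / 2 : ℝ) := by
      rw [← Real.sqrt_eq_rpow, ← hs2, Real.sqrt_sq (sNorm_nonneg h12 A)]
    have hsq : t ≤ sNorm q A := by
      have := abs_entry_le hq1 A i j
      rwa [abs_of_pos ht0] at this
    have hsq0 : 0 < sNorm q A := lt_of_lt_of_le ht0 hsq
    have hex : ∃ j : Fin N, 0 < (Matrix.toEuclideanLin A).singularValues j := by
      by_contra hcon
      push Not at hcon
      have h3 : ∀ j : Fin N, (Matrix.toEuclideanLin A).singularValues j = 0 := fun j =>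
        le_antisymm (hcon j) (sv_nonneg A j)
      have h4 : sNorm q A = 0 := by
        unfold sNorm
        simp only [h3]
        have : (WithLp.toLp q (fun _ : Fin N => (0 : ℝ)) : PiLp q (fun _ : Fin N => ℝ)) = 0 := rfl
        rw [this]
        have : Fact (1 ≤ q) := ⟨hq1⟩
        exact norm_zero
      linarith
    have hint : sNorm p A ≤ sNorm 2 A ^ θ * sNorm q A ^ (1 - θ) :=
      norm_toLp_interp hp hpq hq (sv_nonneg A) hex
    have h5 := (hr A hA).trans (mul_le_mul_of_nonneg_left hint hr0)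
    rw [hs2'] at h5
    -- `‖A‖_q ≤ r t ^ (θ / 2) ‖A‖_q ^ (1 - θ)`
    have h6 : sNorm q A ^ θ ≤ r * t ^ (θ / 2) := by
      have e1 : sNorm q A = sNorm q A ^ θ * sNorm q A ^ (1 - θ) := by
        rw [← Real.rpow_add hsq0]
        simp
      have e2 : r * ((t ^ (1 / 2 : ℝ)) ^ θ * sNorm q A ^ (1 - θ)) =
          (r * t ^ (θ / 2)) * sNorm q A ^ (1 - θ) := by
        rw [← Real.rpow_mul ht0.le]
        rw [mul_assoc]
        congr 3
        ring
      rw [e2] at h5
      nth_rewrite 1 [e1] at h5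
      exact le_of_mul_le_mul_right h5 (Real.rpow_pos_of_pos hsq0 _)
    have h7 : t ^ θ ≤ r * t ^ (θ / 2) := (Real.rpow_le_rpow ht0.le hsq hθ0).trans h6
    have h8 : t ^ θ = t ^ (θ / 2) * t ^ (θ / 2) := by
      rw [← Real.rpow_add ht0]
      congr 1
      ring
    rw [h8] at h7
    have h9 : t ^ (θ / 2) ≤ r := le_of_mul_le_mul_right h7 (Real.rpow_pos_of_pos ht0 _)
    exact (Real.rpow_le_rpow hδ.le hδt (by positivity)).trans h9

end Pool.Agent.Results.MP_9a3a53_an.LowerAll
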