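import Pool.Agent.Work.MP_9a3a53_rnd.Contr
import Pool.Agent.Work.MP_9a3a53_rnd.Rt
import Pool.Agent.Work.MP_9a3a53_rnd.Sizes

/-!
# Approximation and Gelfand numbers of the embeddings of Schatten classes
-/

set_option autoImplicit false
open Finset Module
open scoped ENNReal

namespace Pool.Agent.Results.MP_9a3a53_an.RandomBlocks

open Pool.Schatten Pool.Schatten.Rnd

variable {N : ℕ}

/-- interpolation between the exponents `p` and `∞` -/
lemma sNorm_interp {p q : ℝ≥0∞} (hp : 1 ≤ p) (hpq : p ≤ q) (A : Matrix (Fin N) (Fin N) ℝ) {r : ℝ}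
    (hr0 : 0 ≤ r) (hr : sNorm ∞ A ≤ r * sNorm p A) (hp' : p ≠ ∞) :
    sNorm q A ≤ r ^ (1 - p.toReal / q.toReal) * sNorm p A := by
  have hS0 : 0 ≤ sNorm p A := sNorm_nonneg hp A
  rcases eq_or_ne q ∞ with rfl | hq
  · simpa using hr
  have hP := toReal_pos hp hp'
  have hQ := toReal_pos (hp.trans hpq) hq
  have hPQ : p.toReal ≤ q.toReal := ENNReal.toReal_mono hq hpq
  have hI0 : 0 ≤ sNorm ∞ A := sNorm_nonneg le_top A
  rcases eq_or_lt_of_le hPQ with hE | hL
  · have e1 : p = q := (ENNReal.toReal_eq_toReal_iff' hp' hq).1 hE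
    subst e1
    rw [div_self (by linarith), sub_self, Real.rpow_zero, one_mul]
  have h1 : sNorm q A ^ q.toReal ≤ (r ^ (1 - p.toReal / q.toReal) * sNorm p A) ^ q.toReal := by
    have e1 : sNorm q A ^ q.toReal =
        ∑ j : Fin N, (Matrix.toEuclideanLin A).singularValues j ^ q.toReal :=
      (sum_rpow_eq (hp.trans hpq) hq (sv_nonneg A)).symm
    have e2 : sNorm p A ^ p.toReal =
        ∑ j : Fin N, (Matrix.toEuclideanLin A).singularValues j ^ p.toReal :=
      (sum_rpow_eq hp hp' (sv_nonneg A)).symm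
    have h2 : sNorm q A ^ q.toReal ≤
        (r * sNorm p A) ^ (q.toReal - p.toReal) * sNorm p A ^ p.toReal := by
      rw [e1, e2, mul_sum]
      apply sum_le_sum
      intro j _
      have hj := sv_nonneg A j
      have hj2 : (Matrix.toEuclideanLin A).singularValues j ≤ r * sNorm p A :=
        (sv_le_sNorm le_top A j).trans hr
      rcases eq_or_lt_of_le hj with h4 | h4
      · rw [← h4, Real.zero_rpow (x := q.toReal) (by linarith),
          Real.zero_rpow (x := p.toReal) (by linarith), mul_zero]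
      · have e3 : (Matrix.toEuclideanLin A).singularValues j ^ q.toReal =
            (Matrix.toEuclideanLin A).singularValues j ^ (q.toReal - p.toReal) *
              (Matrix.toEuclideanLin A).singularValues j ^ p.toReal := by
          rw [← Real.rpow_add h4]
          congr 1
          ring
        rw [e3]
        exact mul_le_mul_of_nonneg_right (Real.rpow_le_rpow hj hj2 (by linarith))
          (Real.rpow_nonneg hj _)
    refine h2.trans (le_of_eq ?_)
    rw [Real.mul_rpow hr0 hS0, Real.mul_rpow (Real.rpow_nonneg hr0 _) hS0, ← Real.rpow_mul hr0]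
    have e4 : (1 - p.toReal / q.toReal) * q.toReal = q.toReal - p.toReal := by
      field_simp
    rw [e4, mul_assoc]
    congr 1
    rcases eq_or_lt_of_le hS0 with h5 | h5
    · rw [← h5, Real.zero_rpow (x := p.toReal) (by linarith),
        Real.zero_rpow (x := q.toReal) (by linarith), mul_zero]
    · rw [← Real.rpow_add h5]
      congr 1
      ring
  exact (Real.rpow_le_rpow_iff (sNorm_nonneg (hp.trans hpq) A)
    (mul_nonneg (Real.rpow_nonneg hr0 _) hS0) (by linarith)).1 h1

lemma finrank_mat : finrank ℝ (Matrix (Fin N) (Fin N) ℝ) = N ^ 2 := by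
  simp only [finrank_matrix, Fintype.card_fin, finrank_self, mul_one]
  ring

/-- the constant -/
noncomputable def cst (P : ℝ) : ℝ := 12 * (CP P + 1)

lemma cst_pos {P : ℝ} (hP : 2 < P) : 0 < cst P := by
  have := CP_pos hP
  unfold cst
  positivity

lemma bnd_nonneg (P : ℝ) (N k : ℕ) : 0 ≤ bnd P N k :=
  le_max_of_le_right (Real.rpow_nonneg (Nat.cast_nonneg _) _)

/-- **the projections** -/
theorem exists_proj {r : ℝ≥0∞} (hr : 2 < r) (hr' : r ≠ ∞) {k : ℕ} (hN : 1 ≤ N) (hk : 1 ≤ k)
    (hkN : k ≤ N ^ 2) :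
    ∃ P : Matrix (Fin N) (Fin N) ℝ →ₗ[ℝ] Matrix (Fin N) (Fin N) ℝ,
      k ≤ finrank ℝ (LinearMap.range P) ∧ (∀ A, P (P A) = P A) ∧
      (∀ A, sNorm ∞ (P A) ≤ cst r.toReal * bnd r.toReal N k * sNorm r A) ∧
      ∀ A, sNorm 2 (P A) ≤ sNorm 2 A := by
  have hr1 : 1 ≤ r := le_trans (by norm_num) hr.le
  have hP : 2 < r.toReal := by
    have := (ENNReal.toReal_lt_toReal (by norm_num) hr').2 hr
    simpa using this
  have hCP := CP_pos hP
  have hB0 := bnd_nonneg r.toReal N k
  rcases exists_sizes2 hP (N := N) (k := k) hN hk with h | h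
  · obtain ⟨m, l, d, hm, hd4, hd, hml, hkd, hmb⟩ := h
    obtain ⟨h, hh, hU⟩ := exists_good hm hd4
    set e : Fin m × Fin l → Fin N := fun x => Fin.castLE hml (finProdFinEquiv x) with he
    have hinj : Function.Injective e := (Fin.castLE_injective hml).comp finProdFinEquiv.injective
    have hproj := fun A : Matrix (Fin N) (Fin N) ℝ => proj_le hinj hm hh hU hr hr' hd A
    have hsurj : Function.Surjective (dn e h) := fun y => ⟨upp e h y, dn_upp hinj hh y⟩
    have hinj2 : Function.Injective (upp e h) :=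
      Function.LeftInverse.injective (g := dn e h) (dn_upp hinj hh)
    have hfr2 : finrank ℝ (Fin d → Matrix (Fin l) (Fin l) ℝ) = d * l ^ 2 := by
      simp only [finrank_pi_fintype, finrank_matrix, Fintype.card_fin, finrank_self, mul_one,
        sum_const, card_univ, smul_eq_mul]
      ring
    refine ⟨(upp e h).comp (dn e h), ?_, ?_, ?_, ?_⟩
    · rw [LinearMap.range_comp, LinearMap.range_eq_top.2 hsurj, Submodule.map_top,
        LinearMap.finrank_range_of_inj hinj2, hfr2]
      exact hkd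
    · intro A
      simp only [LinearMap.comp_apply, dn_upp hinj hh]
    · intro A
      refine (hproj A).trans (mul_le_mul_of_nonneg_right ?_ (sNorm_nonneg hr1 A))
      calc CP r.toReal * (m : ℝ) ^ (-(1 / r.toReal)) ≤ CP r.toReal * (12 * bnd r.toReal N k) :=
            mul_le_mul_of_nonneg_left hmb hCP.le
        _ ≤ cst r.toReal * bnd r.toReal N k := by
            unfold cst
            nlinarith
    · intro A
      exact sNorm_two_proj_le hinj hh A
  · refine ⟨LinearMap.id, ?_, fun A => rfl, ?_, fun A => le_refl _⟩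
    · rw [LinearMap.range_id, finrank_top, finrank_mat]
      exact hkN
    · intro A
      have h1 : 1 ≤ cst r.toReal * bnd r.toReal N k := by
        unfold cst
        nlinarith
      calc sNorm ∞ A ≤ 1 * sNorm r A := by
            rw [one_mul]
            exact sNorm_anti hr1 le_top A
        _ ≤ _ := mul_le_mul_of_nonneg_right h1 (sNorm_nonneg hr1 A)

lemma max_rpow {x y s : ℝ} (hx : 0 ≤ x) (hy : 0 ≤ y) (hs : 0 ≤ s) :
    (max x y) ^ s = max (x ^ s) (y ^ s) := by
  rcases le_total x y with h | h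
  · rw [max_eq_right h, max_eq_right (Real.rpow_le_rpow hx h hs)]
  · rw [max_eq_left h, max_eq_left (Real.rpow_le_rpow hy h hs)]

/-- For `2 < p ≤ q ≤ ∞`, with `a = 1 / p`, `b = 1 / q` and `δ = (N ^ 2 - n + 1) / N ^ 2`,
`a_n (S_p^N → S_q^N) ≤ C max (δ ^ ((a - b) (1 - 2 b) / (2 (1 - a - b)))) (N ^ (-(a - b)))`,
`c_n (S_p^N → S_q^N) ≤ C max (δ ^ ((a - b) / (2 (1 - a)))) (N ^ (-(a - b)))`
for all `N ≥ 1` and `1 ≤ n ≤ N ^ 2` (in Lean `∞.toReal⁻¹ = 0`). -/
theorem result (p q : ℝ≥0∞) (hp : 2 < p) (hpq : p ≤ q) :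
    ∃ C : ℝ, ∀ N n : ℕ, 1 ≤ N → 1 ≤ n → n ≤ N ^ 2 →
      approxNumber p q N n ≤ C * max ((((N : ℝ) ^ 2 - n + 1) / (N : ℝ) ^ 2) ^
        ((p.toReal⁻¹ - q.toReal⁻¹) * (1 - 2 * q.toReal⁻¹) /
          (2 * (1 - p.toReal⁻¹ - q.toReal⁻¹))))
        ((N : ℝ) ^ (-(p.toReal⁻¹ - q.toReal⁻¹))) ∧
      gelfandNumber p q N n ≤ C * max ((((N : ℝ) ^ 2 - n + 1) / (N : ℝ) ^ 2) ^
        ((p.toReal⁻¹ - q.toReal⁻¹) / (2 * (1 - p.toReal⁻¹))))
        ((N : ℝ) ^ (-(p.toReal⁻¹ - q.toReal⁻¹))) := by
  have hp1 : 1 ≤ p := le_trans (by norm_num) hp.le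
  rcases eq_or_lt_of_le hpq with heq | hlt
  · subst heq
    refine ⟨1, ?_⟩
    intro N n hN hn hnN
    simp only [sub_self, zero_mul, zero_div, neg_zero, Real.rpow_zero, max_self, mul_one]
    constructor
    · refine csInf_le ⟨0, fun x hx => hx.1⟩ ⟨zero_le_one, 0, ?_, ?_⟩
      · rw [LinearMap.range_zero, finrank_bot]
        omega
      · intro A
        rw [LinearMap.zero_apply, sub_zero, one_mul]
    · refine csInf_le ⟨0, fun x hx => hx.1⟩ ⟨zero_le_one, ⊤, ?_, ?_⟩
      · rw [finrank_top, finrank_mat]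
        omega
      · intro A _
        rw [one_mul]
  have hp' : p ≠ ∞ := ne_top_of_lt hlt
  have hP : 2 < p.toReal := by
    have := (ENNReal.toReal_lt_toReal (by norm_num) hp').2 hp
    simpa using this
  have hP0 : 0 < p.toReal := by linarith
  have hCP := cst_pos hP
  set a : ℝ := p.toReal⁻¹ with ha
  set b : ℝ := q.toReal⁻¹ with hb
  have ha0 : 0 < a := by positivity
  have ha2 : a < 1 / 2 := by
    rw [ha, inv_eq_one_div]
    exact one_div_lt_one_div_of_lt (by norm_num) hP
  have hb0 : 0 ≤ b := by positivity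
  have hab : b < a := by
    rcases eq_or_ne q ∞ with rfl | hq
    · simpa [hb] using ha0
    · have h1 := (ENNReal.toReal_lt_toReal hp' hq).2 hlt
      rw [ha, hb]
      exact inv_strictAnti₀ hP0 h1
  have hap : p.toReal = 1 / a := by
    rw [ha]
    field_simp
  set ρ : ℝ := (1 - 2 * b) / (a - b) with hρ
  have hab0 : 0 < a - b := by linarith
  have h2b : 0 < 1 - 2 * b := by linarith
  have hρ2 : 2 < ρ := by
    rw [hρ, lt_div_iff₀ hab0]
    linarith
  set r : ℝ≥0∞ := ENNReal.ofReal ρ with hr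
  have hr' : r ≠ ∞ := ENNReal.ofReal_ne_top
  have hrt : r.toReal = ρ := ENNReal.toReal_ofReal (by linarith)
  have hr2 : 2 < r := by
    rw [hr, ← ENNReal.ofReal_ofNat 2]
    exact (ENNReal.ofReal_lt_ofReal_iff (by linarith)).2 hρ2
  have hr1 : 1 ≤ r := le_trans (by norm_num) hr2.le
  have hCr := cst_pos hρ2
  refine ⟨max (cst ρ ^ (1 - 2 * b)) (cst p.toReal ^ ((a - b) / a)), ?_⟩
  intro N n hN hn hnN
  have hN0 : (0 : ℝ) ≤ N := Nat.cast_nonneg _
  set k : ℕ := N ^ 2 - n + 1 with hk
  have hkr : ((N : ℝ) ^ 2 - n + 1) = (k : ℝ) := by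
    rw [hk]
    push_cast [Nat.cast_sub hnN]
    ring
  rw [hkr]
  have hδ0 : 0 ≤ (k : ℝ) / (N : ℝ) ^ 2 := by positivity
  constructor
  · obtain ⟨P, hPk, hPP, h0, h1⟩ := exists_proj hr2 hr' (N := N) (k := k) hN (by omega) (by omega)
    rw [hrt] at h0
    set R : ℝ := cst ρ * bnd ρ N k with hR
    have hR0 : 0 ≤ R := mul_nonneg hCr.le (bnd_nonneg _ _ _)
    have hmain : ∀ A, sNorm q (P A) ≤ R ^ (1 - 2 * b) * sNorm p A := by
      intro A
      rcases eq_or_ne q ∞ with hq | hq
      · have hb' : b = 0 := by rw [hb, hq]; simp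
        have hρp : ρ = p.toReal := by
          rw [hρ, hb', hap]
          norm_num
        have hrp : r = p := by
          rw [hr, hρp, ENNReal.ofReal_toReal hp']
        rw [hq, hb', mul_zero, sub_zero, Real.rpow_one, ← hrp]
        exact h0 A
      · have hQ : 2 < q.toReal := by
          have := (ENNReal.toReal_lt_toReal hp' hq).2 hlt
          linarith
        have e1 : 2 * b = 2 / q.toReal := by
          rw [hb]
          ring
        rw [e1]
        refine sNorm_rt hR0 hr1 hr' h0 h1 (hp.trans hlt) hq hp1 hp' ?_ A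
        rw [hrt, ← e1, hρ, div_div_cancel₀ h2b.ne', one_div, one_div, ← ha, ← hb]
        ring
    have hval : R ^ (1 - 2 * b) ≤ max (cst ρ ^ (1 - 2 * b)) (cst p.toReal ^ ((a - b) / a)) *
        max (((k : ℝ) / (N : ℝ) ^ 2) ^ ((a - b) * (1 - 2 * b) / (2 * (1 - a - b))))
          ((N : ℝ) ^ (-(a - b))) := by
      rw [hR, Real.mul_rpow hCr.le (bnd_nonneg _ _ _)]
      apply mul_le_mul (le_max_left _ _) (le_of_eq _) (Real.rpow_nonneg (bnd_nonneg _ _ _) _)
        (le_max_of_le_left (Real.rpow_nonneg hCr.le _))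
      rw [bnd, max_rpow (Real.rpow_nonneg hδ0 _) (Real.rpow_nonneg hN0 _) h2b.le,
        ← Real.rpow_mul hδ0, ← Real.rpow_mul hN0]
      have h3 : 0 < 1 - a - b := by linarith
      have e3 : ρ - 1 = (1 - a - b) / (a - b) := by
        rw [hρ]
        field_simp
        ring
      congr 2
      · rw [e3]
        field_simp
      · rw [hρ]
        field_simp
    refine le_trans (csInf_le ⟨0, fun x hx => hx.1⟩ ⟨Real.rpow_nonneg hR0 _,
      LinearMap.id - P, ?_, ?_⟩) hval
    · have h1 : LinearMap.range (LinearMap.id - P) ≤ LinearMap.ker P := by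
        rintro _ ⟨A, rfl⟩
        rw [LinearMap.mem_ker, LinearMap.sub_apply, map_sub, LinearMap.id_apply, hPP, sub_self]
      have h2 := Submodule.finrank_mono h1
      have h3 := P.finrank_range_add_finrank_ker
      rw [finrank_mat] at h3
      omega
    · intro A
      rw [LinearMap.sub_apply, LinearMap.id_apply, sub_sub_cancel]
      exact hmain A
  · obtain ⟨P, hPk, hPP, h0, _⟩ := exists_proj hp hp' (N := N) (k := k) hN (by omega) (by omega)
    set R : ℝ := cst p.toReal * bnd p.toReal N k with hR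
    have hR0 : 0 ≤ R := mul_nonneg hCP.le (bnd_nonneg _ _ _)
    have hexp : 1 - p.toReal / q.toReal = (a - b) / a := by
      rw [div_eq_mul_inv, ← hb, hap]
      field_simp
    have hval : R ^ ((a - b) / a) ≤ max (cst ρ ^ (1 - 2 * b)) (cst p.toReal ^ ((a - b) / a)) *
        max (((k : ℝ) / (N : ℝ) ^ 2) ^ ((a - b) / (2 * (1 - a)))) ((N : ℝ) ^ (-(a - b))) := by
      rw [hR, Real.mul_rpow hCP.le (bnd_nonneg _ _ _)]
      apply mul_le_mul (le_max_right _ _) (le_of_eq _) (Real.rpow_nonneg (bnd_nonneg _ _ _) _)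
        (le_max_of_le_right (Real.rpow_nonneg hCP.le _))
      rw [bnd, max_rpow (Real.rpow_nonneg hδ0 _) (Real.rpow_nonneg hN0 _)
        (div_nonneg hab0.le ha0.le), ← Real.rpow_mul hδ0, ← Real.rpow_mul hN0]
      have h3 : 0 < 1 - a := by linarith
      have e3 : p.toReal - 1 = (1 - a) / a := by
        rw [hap]
        field_simp
      congr 2
      · rw [e3]
        field_simp
      · rw [hap]
        field_simp
    refine le_trans (csInf_le ⟨0, fun x hx => hx.1⟩ ⟨Real.rpow_nonneg hR0 _,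
      LinearMap.range P, ?_, ?_⟩) hval
    · have : N ^ 2 < k + n := by omega
      omega
    · rintro _ ⟨Z, rfl⟩
      have h5 := h0 (P Z)
      rw [hPP] at h5
      have h6 := sNorm_interp hp1 hpq (P Z) hR0 h5 hp'
      rwa [hexp] at h6

end Pool.Agent.Results.MP_9a3a53_an.RandomBlocks
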